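import Pool.Agent.H143Z.Vir.E

set_option autoImplicit false

namespace Pool.Agent.H143Z.Acc

open Pool.Agent.H143Z.Vir

abbrev En (M : Type) [AddCommGroup M] [Module ℂ M] : Type := Module.End ℂ M

/-- eventually constant sequence -/
def Stz {α : Type} (f : ℕ → α) : Prop := ∃ n, ∀ m, n ≤ m → f m = f n

section noe
variable {M ι : Type} [AddCommGroup M] [Module ℂ M]

/-- `p` is stable under the operators `op i`, `i ∈ S` -/
def Stb (op : ι → En M) (S : Set ι) (p : Submodule ℂ M) : Prop := ∀ i ∈ S, ∀ m ∈ p, op i m ∈ p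

/-- ascending chain condition for stable subspaces contained in `L` -/
def Noe (op : ι → En M) (S : Set ι) (L : Submodule ℂ M) : Prop :=
  ∀ f : ℕ → Submodule ℂ M, Monotone f → (∀ n, Stb op S (f n)) → (∀ n, f n ≤ L) → Stz f

/-- `L` is contained in every stable subspace containing a certain finite subset of `L` -/
def Fg (op : ι → En M) (S : Set ι) (L : Submodule ℂ M) : Prop :=
  ∃ s : Finset M, (∀ m ∈ s, m ∈ L) ∧ ∀ p, Stb op S p → (∀ m ∈ s, m ∈ p) → L ≤ p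

end noe

/-- `x_i ^ k` -/
noncomputable def xm (i : ℕ) (k : ℤ) : R := mo (Pi.single (Sum.inr i) k)
/-- `t_0 ^ k` -/
noncomputable def tm (k : ℤ) : R := mo (Pi.single (Sum.inl 0) k)
/-- Euler operator in `x_i` -/
noncomputable abbrev thx (i : ℕ) : R →ₗ[ℂ] R := der (pr (Sum.inr i))
/-- Euler operator in `t_0` -/
noncomputable abbrev tht : R →ₗ[ℂ] R := der (pr (Sum.inl 0))
/-- the vector field `t^k θ` acting on functions of the points in `A` -/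
noncomputable def Dx (A : Finset ℕ) (k : ℤ) (r : R) : R := ∑ i ∈ A, xm i k * thx i r
/-- `∏ (t_0 - x_i)` -/
noncomputable def PP (B : Finset ℕ) : R := ∏ i ∈ B, (t 0 - x i)
/-- power sums -/
noncomputable def pS (J : Finset ℕ) (k : ℤ) : R := ∑ i ∈ J, xm i k

/-- algebra endomorphism induced by an additive map of exponents -/
noncomputable def em (g : Ex →+ Ex) : R →ₐ[ℂ] R :=
  ah (fun e => mo (g e)) (by rw [map_zero, mo_zero]) (fun a b => by rw [map_add, mo_add])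

lemma em_mo (g : Ex →+ Ex) (e : Ex) : em g (mo e) = mo (g e) := ah_mo _ _ _ _

/-- keep only the exponents of the variables in `V` -/
noncomputable def keepE (V : Set Va) : Ex →+ Ex where
  toFun e := V.indicator e
  map_zero' := by funext v; simp
  map_add' a b := Set.indicator_add' V a b

/-- keep only `x_i`, `i ∈ A` (all other variables are set to `1`) -/
noncomputable def kl (A : Finset ℕ) : R →ₐ[ℂ] R := em (keepE (Sum.inr '' (A : Set ℕ)))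
/-- keep only `t_0` and `x_i`, `i ∈ A` -/
noncomputable def kt (A : Finset ℕ) : R →ₐ[ℂ] R :=
  em (keepE (insert (Sum.inl 0) (Sum.inr '' (A : Set ℕ))))
/-- set `t_0` to `1` -/
noncomputable def z0 : R →ₐ[ℂ] R := em (keepE {Sum.inl 0}ᶜ)

/-- names of operators -/
inductive Sb : Type
  | xi (r : R) : Sb
  | y (a : ℤ) : Sb
  | rho (k : ℤ) : Sb
  | dg : Sb

/-- a vector space with operators -/
structure Ob : Type 1 where
  M : Type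
  [i1 : AddCommGroup M]
  [i2 : Module ℂ M]
  ξ : R →ₐ[ℂ] Module.End ℂ M
  y : ℤ → Module.End ℂ M
  ρ : ℤ → Module.End ℂ M
  dg : Module.End ℂ M

attribute [instance] Ob.i1 Ob.i2

namespace Ob
variable (O : Ob)

noncomputable def op : Sb → En O.M
  | .xi r => O.ξ r
  | .y a => O.y a
  | .rho k => O.ρ k
  | .dg => O.dg

/-- `c(x) t^k ↦ c(x) ρ_k` -/
noncomputable def ρR : R →ₗ[ℂ] En O.M := lin fun e => O.ξ (mo e) * O.ρ (e (Sum.inl 0))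
/-- `c(x) t^k ↦ c(x) y_k` -/
noncomputable def YR : R →ₗ[ℂ] En O.M := lin fun e => O.ξ (mo e) * O.y (e (Sum.inl 0))

/-- the algebraic relations -/
structure Ax (A : Finset ℕ) : Prop where
  supp : ∀ r, O.ξ (kl A r) = O.ξ r
  yy : ∀ a b, O.y a * O.y b = O.y b * O.y a
  yξ : ∀ a r, O.y a * O.ξ r = O.ξ r * O.y a
  ρξ : ∀ k r, O.ρ k * O.ξ r = O.ξ r * O.ρ k + O.ξ (Dx A k r)
  ρy : ∀ k a, O.ρ k * O.y a = O.y a * O.ρ k + ((a - k : ℤ) : ℂ) • O.y (a + k)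
  ρρ : ∀ k m, O.ρ k * O.ρ m = O.ρ m * O.ρ k + ((m - k : ℤ) : ℂ) • O.ρ (m + k)
  dξ : ∀ r, O.dg * O.ξ r = O.ξ r * O.dg
  dρ : ∀ k, O.dg * O.ρ k = O.ρ k * O.dg
  dy : ∀ a, O.dg * O.y a = O.y a * O.dg + O.y a

/-- joint eigenspaces of the degree and the weight -/
noncomputable def Eg (p : ℤ × ℤ) : Submodule ℂ O.M :=
  Module.End.eigenspace O.dg (p.1 : ℂ) ⊓ Module.End.eigenspace (O.ρ 0) (p.2 : ℂ)

def Diag : Prop := ∀ m : O.M, m ∈ ⨆ p : ℤ × ℤ, O.Eg p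

def Yrel (B : Finset ℕ) : Prop := ∀ g, O.YR (PP B * g) = 0

def Rrel (A : Finset ℕ) (N : ℕ) : Prop := ∀ g, O.ρR (PP A ^ N * g) = 0

/-- `γ_b` -/
noncomputable def gm (B : Finset ℕ) (b : ℕ) : En O.M := O.YR (PP (B.erase b))

/-- `δ = ∏ γ_b` -/
noncomputable def dlt (B : Finset ℕ) : En O.M := (B.toList.map (O.gm B)).prod

end Ob

/-- the operators `y`, `ρ`, degree -/
def SA : Set Sb := {s | (∃ a, s = .y a) ∨ (∃ k, s = .rho k) ∨ s = .dg}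
/-- `x_i ^ ε` and `y_(ε a)` for `0 ≤ a < L` -/
def SP (ε : ℤ) (A : Finset ℕ) (L : ℕ) : Set Sb :=
  {s | (∃ i ∈ A, s = .xi (xm i ε)) ∨ ∃ a : ℕ, a < L ∧ s = .y (ε * a)}
/-- both signs -/
def SG (A : Finset ℕ) (L : ℕ) : Set Sb := SP 1 A L ∪ SP (-1) A L
/-- lattice operators -/
def SR (ε : ℤ) (A : Finset ℕ) (L : ℕ) : Set Sb :=
  SP ε A L ∪ {s | (∃ k : ℕ, s = .rho (ε * k)) ∨ s = .dg}

namespace Ob
variable (O : Ob)

def Reg (ε : ℤ) (A : Finset ℕ) (L : ℕ) : Prop :=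
  ∀ m : O.M, ∃ p : Submodule ℂ O.M, m ∈ p ∧ Stb O.op (SR ε A L) p ∧ Noe O.op (SP ε A L) p

/-- good objects -/
structure Gd (A B : Finset ℕ) (N L : ℕ) : Prop where
  ax : O.Ax A
  sub : B ⊆ A
  diag : O.Diag
  yrel : O.Yrel B
  rrel : O.Rrel A N
  fg : Noe O.op (SG A L) ⊤
  regp : O.Reg 1 A L
  regm : O.Reg (-1) A L

/-- noetherian for `y`, `ρ` and the degree -/
def NA : Prop := Noe O.op SA ⊤

end Ob

/-- morphisms -/
def IsHom {O O' : Ob} (φ : O.M →ₗ[ℂ] O'.M) : Prop := ∀ s m, φ (O.op s m) = O'.op s (φ m)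

/-- the main statement about good objects -/
def MainSt : Prop := ∀ (O : Ob) (A B : Finset ℕ) (N L : ℕ), O.Gd A B N L → O.NA

/-- first order operator attached to `G` -/
noncomputable def rh {M : Type} [AddCommGroup M] [Module ℂ M] (ξ : R →ₐ[ℂ] Module.End ℂ M)
    (F : Finset ℕ) (θ : ℕ → En M) (μ : ℕ → ℂ) (G : R) : En M :=
  ∑ i ∈ F, (ξ (sub 0 i G) * θ i + μ i • ξ (sub 0 i (tht G)))

/-- the prefactor -/
noncomputable def ZF (F : Finset ℕ) (N : ℕ) (P : R) : R :=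
  (∏ p ∈ F.offDiag, (x p.1 - x p.2) ^ N) * ∏ i ∈ F, sub 0 i P

/-- inclusion of Laurent polynomials, new variable in front -/
noncomputable def inc (d : ℕ) : FF d →ₐ[ℂ] FF (d + 1) :=
  ah (fun a => mo (Fin.cons 0 a : Fin (d + 1) → ℤ))
    (by
      have : (Fin.cons 0 (0 : Fin d → ℤ) : Fin (d + 1) → ℤ) = 0 := by
        funext i; refine Fin.cases ?_ (fun j => ?_) i <;> simp
      rw [this, mo_zero])
    (fun a b => by
      have : (Fin.cons 0 (a + b) : Fin (d + 1) → ℤ) = Fin.cons 0 a + Fin.cons 0 b := by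
        funext i; refine Fin.cases ?_ (fun j => ?_) i <;> simp
      rw [this, mo_add])

/-! Statements of the separate lemmas. -/

/-- T1 -/
def T1 : Prop := ∀ 𝔞 : (d : ℕ) → Ideal (FF d),
  (∀ d (τ : Equiv.Perm (Fin d)), ∀ F ∈ 𝔞 d, perm τ F ∈ 𝔞 d) →
  (∀ d, ∀ F ∈ 𝔞 d, inc d F ∈ 𝔞 (d + 1)) → (∃ d, ∃ F ∈ 𝔞 d, F ≠ 0) →
  ∃ n : ℕ, ∀ d (F : FF d),
    (∀ w : Fin d → ℂˣ, (∃ z : Fin n → ℂˣ, ∀ k, ∃ j, w k = z j) → ev w F = 0) → F ∈ 𝔞 d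

/-- T2 -/
def T2 : Prop := ∀ (M : Type) [AddCommGroup M] [Module ℂ M] (L : Submodule ℂ M) (X Nb w : En M)
  (κ : Type) (S : Set κ) (z : κ → En M) (q : ℕ) (ε : ℂ), S.Finite → ε ≠ 0 →
  (∀ m ∈ L, X m ∈ L) → (∀ m ∈ L, Nb m ∈ L) → (∀ m ∈ L, w m ∈ L) → Stb z S L →
  (∀ j ∈ S, ∀ j' ∈ S, z j * z j' = z j' * z j) → (∀ j ∈ S, z j * X = X * z j) →
  (∀ j ∈ S, z j * Nb = Nb * z j) → w * X = X * w + X →
  (∀ j ∈ S, ∃ d : ℕ, 0 < d ∧ w * z j = z j * w + (d : ℂ) • z j) → w * Nb = Nb * w + (q : ℂ) • Nb →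
  (∀ m ∈ L, m ∈ ⨆ n : ℤ, Module.End.eigenspace w (n : ℂ)) →
  (∀ m ∈ L, Nb (X m) - X (Nb m) - ε • (X ^ (q + 1)) m ∈ ⨆ j ∈ S, L.map (z j)) →
  (∃ s : Finset M, (∀ m ∈ s, m ∈ L) ∧
    ∀ p, Stb z S p → (∀ m ∈ p, X m ∈ p) → (∀ m ∈ s, m ∈ p) → L ≤ p) →
  ∃ s : Finset M, (∀ m ∈ s, m ∈ L) ∧
    ∀ p, Stb z S p → (∀ m ∈ L, Nb m ∈ p) → (∀ m ∈ s, m ∈ p) → L ≤ p

/-- T3 -/
def T3 : Prop := ∀ (M : Type) [AddCommGroup M] [Module ℂ M] (ξ : R →ₐ[ℂ] Module.End ℂ M)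
  (F : Finset ℕ) (θ : ℕ → En M) (μ : ℕ → ℂ) (s : En M) (P : R) (B : Finset ℕ) (N : ℕ)
  (I : Submodule ℂ M) (l : List ℕ),
  2 ≤ N → Disjoint B F → kt B P = P → (∀ i ∈ F, ∀ j ∈ F, θ i * θ j = θ j * θ i) →
  (∀ i ∈ F, ∀ r, θ i * ξ r = ξ r * θ i + ξ (thx i r)) → (∀ i ∈ F, μ i ≠ 1) →
  (∀ r, s * ξ r = ξ r * s) → (∀ i ∈ F, s * θ i = θ i * s) →
  (∀ k : ℤ, ∀ v ∈ I, s (rh ξ F θ μ (P * tm k) v) ∈ I) →
  l.Nodup → (∀ i, i ∈ l ↔ i ∈ F ∧ μ i = 0) →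
  ∀ h ∈ Algebra.adjoin ℂ (Set.range (pS F)), ∀ v ∈ I,
    (s ^ (2 * F.card)) (ξ (ZF F N P * ZF F N P * h) ((l.map θ).prod v)) ∈ I

/-- T4 -/
def T4 : Prop := ∀ (O : Ob) (A B : Finset ℕ), O.Ax A → B ⊆ A → O.Yrel B →
  (∀ c ∈ Algebra.adjoin ℂ (Set.range (pS B)),
    O.ξ c * O.dlt B ∈ Algebra.adjoin ℂ (Set.range O.y)) ∧
  ∀ (N : ℕ) (k : ℤ) (I : Submodule ℂ O.M), Stb O.op SA I → ∀ v ∈ I,
    O.dlt B (O.ρR (PP B ^ N * tm k) v) ∈ I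

/-- T5a: Hilbert basis theorem -/
def T5a : Prop := ∀ (M ι : Type) [AddCommGroup M] [Module ℂ M] (op : ι → En M) (S : Set ι)
  (L : Submodule ℂ M), S.Finite → (∀ i ∈ S, ∀ j ∈ S, op i * op j = op j * op i) →
  Fg op S L → Noe op S L

/-- T5b: Cayley-Hamilton -/
def T5b : Prop := ∀ (M ι : Type) [AddCommGroup M] [Module ℂ M] (op : ι → En M) (S : Set ι)
  (H : En M), (∀ i ∈ S, ∀ j ∈ S, op i * op j = op j * op i) → (∀ i ∈ S, op i * H = H * op i) →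
  Fg op S ⊤ → ∃ (D : ℕ) (c : ℕ → En M), (∀ j, c j ∈ Algebra.adjoin ℂ (op '' S)) ∧
    H ^ D + ∑ j ∈ Finset.range D, c j * H ^ j = 0

/-- T5c: stable subspaces are graded -/
def T5c : Prop := ∀ (O : Ob) (p : Submodule ℂ O.M), (∀ m ∈ p, O.dg m ∈ p) → (∀ m ∈ p, O.ρ 0 m ∈ p) →
  ∀ m ∈ p, m ∈ (⨆ q : ℤ × ℤ, O.Eg q) → m ∈ ⨆ q : ℤ × ℤ, (O.Eg q ⊓ p)

/-- T6: localisation -/
def T6 : Prop := ∀ (O : Ob) (A : Finset ℕ) (z : R), O.Ax A → Function.Injective (O.ξ z) →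
  ∃ (O' : Ob) (φ : O.M →ₗ[ℂ] O'.M), IsHom φ ∧ Function.Injective φ ∧ O'.Ax A ∧ IsUnit (O'.ξ z) ∧
    ∀ n : O'.M, ∃ (k : ℕ) (m : O.M), O'.ξ (z ^ k) n = φ m

/-- T8: constant eigenvalues -/
def T8 : Prop := ∀ (M : Type) [AddCommGroup M] [Module ℂ M] (ξ : R →ₐ[ℂ] Module.End ℂ M)
  (A : Finset ℕ) (ϑ : ℕ → En M) (e : En M) (D : ℕ) (r : ℕ → R),
  (∀ r, ξ (kl A r) = ξ r) → (∀ j ∈ A, ∀ r, ϑ j * ξ r = ξ r * ϑ j + ξ (thx j r)) →
  (∀ j ∈ A, ϑ j * e = e * ϑ j) → (∀ r, ξ r * e = e * ξ r) → ξ (r D) ≠ 0 →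
  ∑ j ∈ Finset.range (D + 1), ξ (r j) * e ^ j = 0 →
  ∃ b : Polynomial ℂ, b ≠ 0 ∧ Polynomial.aeval e b = 0

/-- the final statement: chains of two-sided ideals in an algebra spanned by words in elements
satisfying the Witt relations -/
def FinalSt : Prop := ∀ (A : Type) [Ring A] [Algebra ℂ A] (L : ℤ → A), Rel L 0 →
  (∀ a : A, a ∈ Sp L) → ∀ I : ℕ → TwoSidedIdeal A, Monotone I → Stz I

/-- T7 -/
def T7 : Prop := MainSt → T1 → T3 → T5a → FinalSt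

end Pool.Agent.H143Z.Acc
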